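import Mathlib

set_option autoImplicit false

namespace Pool.Agent.Results.MP_4956c5_co.NotProp1

open Finset

/-- AnyPrice share of an agent with item values `v` and entitlement `w` -/
noncomputable def APS {M : Type} [Fintype M] (v : M → ℝ) (w : ℝ) : ℝ :=
  sInf {r | ∃ p : M → ℝ, (∀ j, 0 ≤ p j) ∧ ∑ j, p j = 1 ∧
    r = sSup {s | ∃ S : Finset M, ∑ j ∈ S, p j ≤ w ∧ s = ∑ j ∈ S, v j}}

/-- the bundle of agent `i` when item `j` goes to agent `a j` -/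
def bundle {N M : Type} [Fintype M] [DecidableEq N] (a : M → N) (i : N) : Finset M :=
  univ.filter (fun j => a j = i)

theorem APS_le {M : Type} [Fintype M] (v : M → ℝ) (hv : ∀ j, 0 ≤ v j) (w c : ℝ) (hc : 0 ≤ c)
    (p : M → ℝ) (h0 : ∀ j, 0 ≤ p j) (h1 : ∑ j, p j = 1)
    (h : ∀ S : Finset M, ∑ j ∈ S, p j ≤ w → ∑ j ∈ S, v j ≤ c) : APS v w ≤ c := by
  unfold APS
  refine csInf_le_of_le ⟨0, ?_⟩ ⟨p, h0, h1, rfl⟩ (Real.sSup_le ?_ hc)
  · rintro _ ⟨p, -, -, rfl⟩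
    refine Real.sSup_nonneg ?_
    rintro _ ⟨S, -, rfl⟩
    exact sum_nonneg (fun j _ => hv j)
  · rintro _ ⟨S, h2, rfl⟩
    exact h S h2

theorem result : ∃ (m : ℕ) (v : Fin 2 → Fin m → ℝ) (w : Fin 2 → ℝ) (a : Fin m → Fin 2),
    (∀ i j, 0 ≤ v i j) ∧ (∀ i, 0 < w i) ∧ ∑ i, w i = 1 ∧
    (∀ i, APS (v i) (w i) ≤ ∑ j ∈ bundle a i, v i j) ∧
    ∃ i, ∑ j ∈ bundle a i, v i j < w i * ∑ j, v i j ∧
      ∀ g ∉ bundle a i, ∑ j ∈ insert g (bundle a i), v i j < w i * ∑ j, v i j := by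
  have hb : bundle (![0, 0, 1, 1, 1, 1] : Fin 6 → Fin 2) 0 = {0, 1} := by decide
  refine ⟨6, ![![5, 1, 1, 1, 1, 1], 0], ![9 / 10, 1 / 10], ![0, 0, 1, 1, 1, 1], ?_, ?_, ?_, ?_, 0, ?_, ?_⟩
  · intro i j; fin_cases i <;> fin_cases j <;> simp
  · intro i; fin_cases i <;> simp
  · simp; norm_num
  · intro i
    fin_cases i
    · refine APS_le _ (fun j => by fin_cases j <;> simp) _ _
        (sum_nonneg (fun j _ => by fin_cases j <;> simp))
        ![9 / 10, 1 / 50, 1 / 50, 1 / 50, 1 / 50, 1 / 50] (fun j => by fin_cases j <;> simp <;> norm_num)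
        (by simp [Fin.sum_univ_six]; norm_num) (fun S hS => ?_)
      rw [← univ_inter S, ← sum_ite_mem, Fin.sum_univ_six] at hS ⊢
      simp only [Fin.zero_eta, hb]
      simp at hS ⊢
      split_ifs at hS ⊢ <;> linarith
    · exact APS_le _ (fun j => by simp) _ _ (by simp) (fun _ => 1 / 6) (fun _ => by norm_num)
        (by simp) (fun S _ => by simp)
  · rw [hb]; simp [Fin.sum_univ_six]; norm_num
  · rw [hb]
    intro g hg
    rw [sum_insert hg]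
    fin_cases g <;> simp [Fin.sum_univ_six] at hg ⊢ <;> norm_num

end Pool.Agent.Results.MP_4956c5_co.NotProp1
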